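import Mathlib
import Pool.Agent.T2h27.SA.S22

/-!
# MP_46692b_an, Q2: the support of a compactly supported positive measure with algebraic Cauchy
transform is a finite union of compact analytic arcs and isolated points
-/

set_option autoImplicit false

open MeasureTheory Polynomial Metric Set

namespace Pool.Agent.Results.MP_46692b_an.SupportArcs

/-- `A` is a compact analytic arc: the image of `[0, 1]` under a map that is real-analytic and
injective on an open interval containing `[0, 1]`. -/
def IsCompactAnalyticArc (A : Set ℂ) : Prop :=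
  ∃ (a b : ℝ) (g : ℝ → ℂ), a < 0 ∧ 1 < b ∧ AnalyticOnNhd ℝ g (Ioo a b) ∧ InjOn g (Ioo a b) ∧
    A = g '' Icc 0 1

/-- **Q2 of MP_46692b, answered affirmatively.**  Let `μ` be a finite positive Borel measure on the
plane with compact support whose Cauchy transform `z ↦ ∫ (z - ζ)⁻¹ dμ(ζ)` satisfies a polynomial
equation `P(z, C_μ(z)) = 0` for Lebesgue-almost every `z`, where `P ∈ ℂ[z][w]` is any nonzero
polynomial (in particular any irreducible one).  Then the support of `μ` is the union of finitely
many compact analytic arcs and finitely many isolated points of the support. -/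
theorem result (μ : Measure ℂ) [IsFiniteMeasure μ] (hμ : IsCompact μ.support)
    (P : ℂ[X][X]) (hP : P ≠ 0)
    (h : ∀ᵐ z : ℂ, P.evalEval z (∫ ζ, (z - ζ)⁻¹ ∂μ) = 0) :
    ∃ (𝒜 : Set (Set ℂ)) (D : Set ℂ), 𝒜.Finite ∧ D.Finite ∧
      (∀ A ∈ 𝒜, IsCompactAnalyticArc A) ∧
      (∀ p ∈ D, ∃ ε > 0, μ.support ∩ ball p ε = {p}) ∧
      μ.support = ⋃₀ 𝒜 ∪ D :=
  Pool.Agent.T2h27.SA.support_arcs μ hμ P hP h

end Pool.Agent.Results.MP_46692b_an.SupportArcs
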